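import Mathlib

/-!
# MP_e7c87c_co: sign of the entries of the determinant-maximising matrix of a graph

Both questions have a negative answer: there are a connected graph `G` and `x = 1/25` for which
the matrix of maximal determinant has a negative entry.

The graph: a triangle `c_0, c_1, c_2`, a vertex `h` not adjacent to the triangle, for each `k`
a vertex `t_k` adjacent to `h` and to the two vertices `c_l` with `l ≠ k`, and for each `k`
an independent set of `10000` vertices adjacent to exactly `h` and `c_k`.  The many common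
neighbours push `h` towards the direction of `c_0 + c_1 + c_2`, and then the correlation `x`
of `t_k` with `h` and with two of the vertices of the triangle forces a negative correlation
with the third one.
-/

namespace Pool.Agent.Results.MP_e7c87c_co.NegativeEntry

open Matrix

/-- The set `𝒜(G, x)`. -/
def InA {V : Type} [Fintype V] [DecidableEq V] (G : SimpleGraph V) (x : ℝ)
    (M : Matrix V V ℝ) : Prop :=
  M.PosDef ∧ (∀ v, M v v = 1) ∧ ∀ u v, G.Adj u v → M u v = x

/-- `M` is an element of `𝒜(G, x)` of maximal determinant. -/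
def IsDetMax {V : Type} [Fintype V] [DecidableEq V] (G : SimpleGraph V) (x : ℝ)
    (M : Matrix V V ℝ) : Prop :=
  InA G x M ∧ ∀ M', InA G x M' → M'.det ≤ M.det

section general

variable {V : Type} [Fintype V] [DecidableEq V]

open scoped MatrixOrder in
/-- If `P` is positive definite, `M'` is positive definite and `tr (P M') = n` then
`det P * det M' ≤ 1`, with equality only if `M'` is the inverse of `P`. -/
theorem det_mul_le (P M' : Matrix V V ℝ) (hP : P.PosDef) (hM' : M'.PosDef)
    (htr : trace (P * M') = Fintype.card V) : P.det * M'.det ≤ 1 := by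
  obtain ⟨R, hR⟩ := CStarAlgebra.nonneg_iff_eq_star_mul_self.mp hP.posSemidef.nonneg
  have hN : (R * M' * Rᴴ).PosSemidef := hM'.posSemidef.mul_mul_conjTranspose_same R
  have hdet : (R * M' * Rᴴ).det = P.det * M'.det := by
    rw [hR, det_mul, det_mul, det_mul, star_eq_conjTranspose]; ring
  have htr' : (R * M' * Rᴴ).trace = Fintype.card V := by
    rw [Matrix.trace_mul_comm, ← Matrix.mul_assoc, ← star_eq_conjTranspose, ← hR]
    exact htr
  rw [← hdet, hN.isHermitian.det_eq_prod_eigenvalues]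
  have h1 : ∏ i, ((hN.isHermitian.eigenvalues i : ℝ)) ≤
      ∏ i, Real.exp (hN.isHermitian.eigenvalues i - 1) := by
    apply Finset.prod_le_prod
    · intro i _; exact hN.eigenvalues_nonneg i
    · intro i _
      have := Real.add_one_le_exp (hN.isHermitian.eigenvalues i - 1)
      linarith
  have h2 : ∏ i, Real.exp (hN.isHermitian.eigenvalues i - 1) = 1 := by
    rw [← Real.exp_sum, Finset.sum_sub_distrib]
    have h3 := hN.isHermitian.trace_eq_sum_eigenvalues
    rw [htr'] at h3
    have h4 : ∑ i, hN.isHermitian.eigenvalues i = (Fintype.card V : ℝ) := by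
      rw [h3]; simp
    rw [h4]; simp
  calc _ = ∏ i, ((hN.isHermitian.eigenvalues i : ℝ)) := by simp
    _ ≤ _ := h1
    _ = 1 := h2

/-- The optimality criterion. -/
theorem isDetMax_of (G : SimpleGraph V) (x : ℝ) (M P : Matrix V V ℝ) (hM : InA G x M)
    (hPM : P * M = 1) (hP0 : ∀ u v, u ≠ v → ¬ G.Adj u v → P u v = 0) : IsDetMax G x M := by
  refine ⟨hM, ?_⟩
  intro M' hM'
  have hPeq : P = M⁻¹ := by
    symm; exact Matrix.inv_eq_left_inv hPM
  have hP : P.PosDef := by rw [hPeq]; exact hM.1.inv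
  have htr : trace (P * M') = Fintype.card V := by
    have h1 : trace (P * M') = trace (P * M) := by
      simp only [Matrix.trace, Matrix.diag_apply, Matrix.mul_apply]
      refine Finset.sum_congr rfl ?_
      intro u _
      refine Finset.sum_congr rfl ?_
      intro v _
      by_cases huv : u = v
      · subst huv; rw [hM.2.1, hM'.2.1]
      · by_cases ha : G.Adj u v
        · rw [hM.2.2 v u ha.symm, hM'.2.2 v u ha.symm]
        · rw [hP0 u v huv ha]; simp
    rw [h1, hPM]; simp
  have h2 := det_mul_le P M' hP hM'.1 htr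
  have h3 : P.det * M.det = 1 := by rw [← det_mul, hPM, det_one]
  have h4 := hP.det_pos
  rw [← h3] at h2
  exact le_of_mul_le_mul_left h2 h4

end general

/-! ### The graph -/

/-- `none` is `h`, `some k` is `c_k`. -/
abbrev N0 : Type := Option (Fin 3)
/-- `inl k` is `t_k`, `inr (k, i)` is the `i`-th common neighbour of `h` and `c_k`. -/
abbrev W : Type := Fin 3 ⊕ (Fin 3 × Fin 10000)
/-- The vertex set. -/
abbrev V : Type := N0 ⊕ W

/-- the neighbourhoods of the vertices of `W` -/
def nb : W → N0 → Prop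
  | Sum.inl _, none => True
  | Sum.inl k, some l => l ≠ k
  | Sum.inr _, none => True
  | Sum.inr (k, _), some l => l = k

instance (w : W) (u : N0) : Decidable (nb w u) := by
  rcases w with k | ⟨k, i⟩ <;> rcases u with _ | l <;> simp only [nb] <;> infer_instance

/-- the adjacency relation -/
def adj : V → V → Prop
  | Sum.inl u, Sum.inl v => u ≠ none ∧ v ≠ none ∧ u ≠ v
  | Sum.inl u, Sum.inr w => nb w u
  | Sum.inr w, Sum.inl u => nb w u
  | Sum.inr _, Sum.inr _ => False

/-- The graph. -/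
def G : SimpleGraph V where
  Adj := adj
  symm := ⟨by
    rintro (u | w) (v | w') h
    · exact ⟨h.2.1, h.1, h.2.2.symm⟩
    · exact h
    · exact h
    · exact h⟩
  loopless := ⟨by
    rintro (u | w) h
    · exact h.2.2 rfl
    · exact h⟩

theorem connected : G.Connected := by
  have hh : ∀ w : W, G.Adj (Sum.inl none) (Sum.inr w) := by
    rintro (k | ⟨k, i⟩) <;> exact trivial
  have hc : ∀ k : Fin 3, G.Adj (Sum.inl (some k)) (Sum.inr (Sum.inr (k, 0))) := by
    intro k
    show nb (Sum.inr (k, 0)) (some k)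
    rfl
  have hr : ∀ v : V, G.Reachable (Sum.inl none) v := by
    rintro ((_ | k) | w)
    · exact SimpleGraph.Reachable.refl _
    · exact (hh _).reachable.trans (hc k).symm.reachable
    · exact (hh w).reachable
  have : Nonempty V := ⟨Sum.inl none⟩
  exact SimpleGraph.Connected.mk (fun u v => (hr u).symm.trans (hr v))

/-! ### The matrix -/

section mat

variable (x c : ℝ)

/-- covariance of `h, c_0, c_1, c_2` -/
def M0 : Matrix N0 N0 ℝ
  | none, none => 1
  | none, some _ => c
  | some _, none => c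
  | some k, some l => if k = l then 1 else x

/-- inverse of `M0` -/
noncomputable def P0 : Matrix N0 N0 ℝ
  | none, none => (1 + 2 * x) / (1 + 2 * x - 3 * c ^ 2)
  | none, some _ => -c / (1 + 2 * x - 3 * c ^ 2)
  | some _, none => -c / (1 + 2 * x - 3 * c ^ 2)
  | some k, some l => (if k = l then 1 / (1 - x) else 0) +
      (c ^ 2 - x) / ((1 - x) * (1 + 2 * x - 3 * c ^ 2))

/-- regression coefficients -/
noncomputable def bh : ℝ := x * (1 + x - 2 * c) / (1 + x - 2 * c ^ 2)
noncomputable def bc : ℝ := x * (1 - c) / (1 + x - 2 * c ^ 2)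
noncomputable def bj : ℝ := x / (1 + c)

noncomputable def B : Matrix W N0 ℝ
  | Sum.inl _, none => bh x c
  | Sum.inl k, some l => if l = k then 0 else bc x c
  | Sum.inr _, none => bj x c
  | Sum.inr (k, _), some l => if l = k then bj x c else 0

/-- conditional variances -/
noncomputable def dv : W → ℝ
  | Sum.inl _ => 1 - x * (bh x c + 2 * bc x c)
  | Sum.inr _ => 1 - 2 * x * bj x c

noncomputable def Mm : Matrix V V ℝ :=
  fromBlocks (M0 x c) (M0 x c * (B x c)ᵀ) (B x c * M0 x c)
    (B x c * M0 x c * (B x c)ᵀ + diagonal (dv x c))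

noncomputable def Pm : Matrix V V ℝ :=
  fromBlocks (P0 x c + (B x c)ᵀ * diagonal (fun w => (dv x c w)⁻¹) * B x c)
    (-((B x c)ᵀ * diagonal (fun w => (dv x c w)⁻¹)))
    (-(diagonal (fun w => (dv x c w)⁻¹) * B x c))
    (diagonal (fun w => (dv x c w)⁻¹))

variable {x c}

theorem P0_mul_M0 (h1 : 1 - x ≠ 0) (h2 : 1 + 2 * x - 3 * c ^ 2 ≠ 0) : P0 x c * M0 x c = 1 := by
  have h2' : 1 + 2 * x - c ^ 2 * 3 ≠ 0 := by rwa [mul_comm (c ^ 2) 3]
  ext u v
  rw [Matrix.mul_apply, Fintype.sum_option, Fin.sum_univ_three]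
  rcases u with _ | k <;> rcases v with _ | l
  · simp only [P0, M0]
    rw [Matrix.one_apply_eq]
    field_simp
    ring
  · rw [Matrix.one_apply_ne (by simp)]
    fin_cases l <;> simp [P0, M0] <;> field_simp <;> ring
  · rw [Matrix.one_apply_ne (by simp)]
    fin_cases k <;> simp [P0, M0] <;> field_simp <;> ring
  · fin_cases k <;> fin_cases l <;> simp [P0, M0] <;> field_simp <;> ring

theorem Pm_mul_Mm (h1 : 1 - x ≠ 0) (h2 : 1 + 2 * x - 3 * c ^ 2 ≠ 0)
    (h3 : ∀ w, dv x c w ≠ 0) : Pm x c * Mm x c = 1 := by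
  have e1 := P0_mul_M0 h1 h2
  have e2 : diagonal (fun w => (dv x c w)⁻¹) * diagonal (dv x c) = (1 : Matrix W W ℝ) := by
    rw [diagonal_mul_diagonal, ← diagonal_one]
    congr 1
    funext w
    exact inv_mul_cancel₀ (h3 w)
  unfold Pm Mm
  rw [fromBlocks_multiply, ← fromBlocks_one]
  congr 1
  · rw [Matrix.add_mul, e1, Matrix.neg_mul]
    simp only [Matrix.mul_assoc]
    abel
  · rw [Matrix.add_mul, Matrix.mul_add, ← Matrix.mul_assoc (P0 x c), e1, Matrix.one_mul,
      Matrix.neg_mul, Matrix.neg_mul]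
    simp only [Matrix.mul_assoc]
    rw [e2, Matrix.mul_one]
    abel
  · rw [Matrix.neg_mul]
    simp only [Matrix.mul_assoc]
    abel
  · rw [Matrix.mul_add, e2, Matrix.neg_mul]
    simp only [Matrix.mul_assoc]
    abel

theorem M0_posDef (hx : 0 < 1 + 2 * x - 3 * c ^ 2) (hxc : 0 ≤ c ^ 2 - x) : (M0 x c).PosDef := by
  apply Matrix.PosDef.of_dotProduct_mulVec_pos
  · ext u v
    rcases u with _ | k <;> rcases v with _ | l <;> simp [M0, conjTranspose_apply, eq_comm]
  · intro v hv
    have hq : star v ⬝ᵥ (M0 x c *ᵥ v) = (v none + c * (v (some 0) + v (some 1) + v (some 2))) ^ 2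
        + (1 + 2 * x - 3 * c ^ 2) * (v (some 0) ^ 2 + v (some 1) ^ 2 + v (some 2) ^ 2)
        + (c ^ 2 - x) * ((v (some 0) - v (some 1)) ^ 2 + (v (some 0) - v (some 2)) ^ 2
          + (v (some 1) - v (some 2)) ^ 2) := by
      simp only [dotProduct, mulVec, Fintype.sum_option, Fin.sum_univ_three, M0, Pi.star_apply,
        star_trivial]
      simp
      ring
    rw [hq]
    have h3 : 0 ≤ (c ^ 2 - x) * ((v (some 0) - v (some 1)) ^ 2 + (v (some 0) - v (some 2)) ^ 2
          + (v (some 1) - v (some 2)) ^ 2) := mul_nonneg hxc (by positivity)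
    by_cases h0 : v (some 0) = 0 ∧ v (some 1) = 0 ∧ v (some 2) = 0
    · obtain ⟨a0, a1, a2⟩ := h0
      have hn : v none ≠ 0 := by
        intro hn
        apply hv
        funext u
        rcases u with _ | k
        · exact hn
        · fin_cases k
          · exact a0
          · exact a1
          · exact a2
      have : 0 < (v none) ^ 2 := by positivity
      rw [a0, a1, a2]
      nlinarith
    · have hs : 0 < v (some 0) ^ 2 + v (some 1) ^ 2 + v (some 2) ^ 2 := by
        by_contra hc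
        apply h0
        have g0 := sq_nonneg (v (some 0))
        have g1 := sq_nonneg (v (some 1))
        have g2 := sq_nonneg (v (some 2))
        refine ⟨?_, ?_, ?_⟩ <;> apply pow_eq_zero_iff (n := 2) (by norm_num) |>.mp <;> linarith
      have := mul_pos hx hs
      have := sq_nonneg (v none + c * (v (some 0) + v (some 1) + v (some 2)))
      linarith

theorem Mm_posDef (hx : 0 < 1 + 2 * x - 3 * c ^ 2) (hxc : 0 ≤ c ^ 2 - x) (h1 : 1 - x ≠ 0)
    (h3 : ∀ w, 0 < dv x c w) : (Mm x c).PosDef := by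
  have hM0 := M0_posDef hx hxc
  have hPM := Pm_mul_Mm h1 hx.ne' (fun w => (h3 w).ne')
  have hsym : (M0 x c)ᴴ = M0 x c := hM0.isHermitian
  have hu : IsUnit (M0 x c) := hM0.isUnit
  let _ : Invertible (M0 x c) := hu.invertible
  have hps : (Mm x c).PosSemidef := by
    have e1 : Mm x c = fromBlocks (M0 x c) (M0 x c * (B x c)ᵀ) (M0 x c * (B x c)ᵀ)ᴴ
        (B x c * M0 x c * (B x c)ᵀ + diagonal (dv x c)) := by
      unfold Mm
      congr 1
      rw [conjTranspose_mul, hsym]
      congr 1
    rw [e1, Matrix.PosDef.fromBlocks₁₁ _ _ hM0]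
    have e2 : (M0 x c * (B x c)ᵀ)ᴴ * (M0 x c)⁻¹ * (M0 x c * (B x c)ᵀ) =
        B x c * M0 x c * (B x c)ᵀ := by
      rw [conjTranspose_mul, hsym]
      have e3 : ((B x c)ᵀ)ᴴ = B x c := by
        ext i j; simp [conjTranspose_apply]
      rw [e3, Matrix.mul_assoc, Matrix.mul_assoc, ← Matrix.mul_assoc (M0 x c)⁻¹,
        Matrix.inv_mul_of_invertible, Matrix.one_mul, Matrix.mul_assoc]
    rw [e2, add_sub_cancel_left]
    exact Matrix.PosSemidef.diagonal (fun w => (h3 w).le)
  rw [hps.posDef_iff_isUnit]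
  exact (Matrix.isUnit_iff_isUnit_det _).mpr (by
    have : (Pm x c).det * (Mm x c).det = 1 := by rw [← det_mul, hPM, det_one]
    exact IsUnit.of_mul_eq_one _ (by rw [mul_comm]; exact this))

theorem M0_symm (u v : N0) : M0 x c u v = M0 x c v u := by
  rcases u with _ | k <;> rcases v with _ | l <;> simp [M0, eq_comm]

theorem BM0_nb (hA : 1 + x - 2 * c ^ 2 ≠ 0) (hE : 1 + c ≠ 0) (w : W) (u : N0) (h : nb w u) :
    (B x c * M0 x c) w u = x := by
  have hA' : 1 + x - c ^ 2 * 2 ≠ 0 := by rwa [mul_comm (c ^ 2) 2]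
  rw [Matrix.mul_apply, Fintype.sum_option, Fin.sum_univ_three]
  rcases w with k | ⟨k, i⟩
  · rcases u with _ | l
    · fin_cases k <;> simp [B, M0, bh, bc] <;> field_simp <;> ring
    · have hl : l ≠ k := h
      fin_cases k <;> fin_cases l <;> first | exact absurd rfl hl | skip
      all_goals simp [B, M0, bh, bc]
      all_goals field_simp
      all_goals ring
  · rcases u with _ | l
    · fin_cases k <;> simp [B, M0, bj] <;> field_simp
    · have hl : l = k := h
      subst hl
      fin_cases l <;> simp [B, M0, bj] <;> field_simp <;> ring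

theorem B_not_nb (w : W) (u : N0) (h : ¬ nb w u) : B x c w u = 0 := by
  rcases w with k | ⟨k, i⟩
  · rcases u with _ | l
    · exact absurd trivial h
    · have hl : l = k := not_not.mp h
      simp [B, hl]
  · rcases u with _ | l
    · exact absurd trivial h
    · have hl : ¬ l = k := h
      simp [B, hl]

theorem diag_W (hA : 1 + x - 2 * c ^ 2 ≠ 0) (hE : 1 + c ≠ 0) (w : W) :
    (B x c * M0 x c * (B x c)ᵀ + diagonal (dv x c)) w w = 1 := by
  rw [Matrix.add_apply, diagonal_apply_eq, Matrix.mul_apply]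
  have h1 : ∀ u ∈ Finset.univ, (B x c * M0 x c) w u * (B x c)ᵀ u w = x * B x c w u := by
    intro u _
    rw [Matrix.transpose_apply]
    by_cases h : nb w u
    · rw [BM0_nb hA hE w u h]
    · rw [B_not_nb w u h]; ring
  rw [Finset.sum_congr rfl h1, ← Finset.mul_sum, Fintype.sum_option, Fin.sum_univ_three]
  rcases w with k | ⟨k, i⟩
  · fin_cases k <;> simp [B, dv] <;> ring
  · fin_cases k <;> simp [B, dv] <;> ring

theorem inA (hx : 0 < 1 + 2 * x - 3 * c ^ 2) (hxc : 0 ≤ c ^ 2 - x) (h1 : 1 - x ≠ 0)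
    (hA : 1 + x - 2 * c ^ 2 ≠ 0) (hE : 1 + c ≠ 0) (h3 : ∀ w, 0 < dv x c w) : InA G x (Mm x c) := by
  refine ⟨Mm_posDef hx hxc h1 h3, ?_, ?_⟩
  · rintro (u | w)
    · show M0 x c u u = 1
      rcases u with _ | k <;> simp [M0]
    · exact diag_W hA hE w
  · rintro (u | w) (v | w') h
    · obtain ⟨hu, hv, huv⟩ := h
      show M0 x c u v = x
      rcases u with _ | k
      · exact absurd rfl hu
      · rcases v with _ | l
        · exact absurd rfl hv
        · have : k ≠ l := fun hc => huv (by rw [hc])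
          simp [M0, this]
    · show (M0 x c * (B x c)ᵀ) u w' = x
      have e : (M0 x c * (B x c)ᵀ) u w' = (B x c * M0 x c) w' u := by
        rw [Matrix.mul_apply, Matrix.mul_apply]
        refine Finset.sum_congr rfl ?_
        intro v _
        rw [Matrix.transpose_apply, M0_symm u v]; ring
      rw [e]
      exact BM0_nb hA hE w' u h
    · exact BM0_nb hA hE w v h
    · exact absurd h id

/-- The one non-trivial optimality condition. -/
def KKT (x c : ℝ) : Prop :=
  -c / (1 + 2 * x - 3 * c ^ 2) + 2 * (bh x c * (1 - x * (bh x c + 2 * bc x c))⁻¹ * bc x c) +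
    10000 * (bj x c * (1 - 2 * x * bj x c)⁻¹ * bj x c) = 0

theorem P_hc (hK : KKT x c) (k : Fin 3) :
    (P0 x c + (B x c)ᵀ * diagonal (fun w => (dv x c w)⁻¹) * B x c) none (some k) = 0 := by
  rw [Matrix.add_apply, Matrix.mul_apply]
  simp only [Matrix.mul_diagonal, Matrix.transpose_apply]
  rw [Fintype.sum_sum_type, Fintype.sum_prod_type, Fin.sum_univ_three, Fin.sum_univ_three]
  unfold KKT at hK
  fin_cases k <;> simp [B, dv, P0] <;> linarith

theorem P_ch (hK : KKT x c) (k : Fin 3) :
    (P0 x c + (B x c)ᵀ * diagonal (fun w => (dv x c w)⁻¹) * B x c) (some k) none = 0 := by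
  rw [Matrix.add_apply, Matrix.mul_apply]
  simp only [Matrix.mul_diagonal, Matrix.transpose_apply]
  rw [Fintype.sum_sum_type, Fintype.sum_prod_type, Fin.sum_univ_three, Fin.sum_univ_three]
  unfold KKT at hK
  fin_cases k <;> simp [B, dv, P0] <;> linarith

theorem Pm_zero (hK : KKT x c) (u v : V) (huv : u ≠ v) (hG : ¬ G.Adj u v) : Pm x c u v = 0 := by
  rcases u with u | w <;> rcases v with v | w'
  · show (P0 x c + (B x c)ᵀ * diagonal (fun w => (dv x c w)⁻¹) * B x c) u v = 0
    rcases u with _ | k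
    · rcases v with _ | l
      · exact absurd rfl huv
      · exact P_hc hK l
    · rcases v with _ | l
      · exact P_ch hK k
      · exfalso
        apply hG
        refine ⟨by simp, by simp, ?_⟩
        intro hc
        exact huv (by rw [hc])
  · show (-((B x c)ᵀ * diagonal (fun w => (dv x c w)⁻¹))) u w' = 0
    rw [Matrix.neg_apply, Matrix.mul_diagonal, Matrix.transpose_apply, B_not_nb w' u hG]
    simp
  · show (-(diagonal (fun w => (dv x c w)⁻¹) * B x c)) w v = 0
    rw [Matrix.neg_apply, Matrix.diagonal_mul, B_not_nb w v hG]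
    simp
  · show (diagonal (fun w => (dv x c w)⁻¹)) w w' = 0
    rw [diagonal_apply_ne]
    intro hc
    exact huv (by rw [hc])

end mat

/-- The polynomial form of the optimality condition at `x = 1/25`. -/
theorem exists_c : ∃ c : ℝ, 57 / 100 ≤ c ∧ c ≤ 58 / 100 ∧ KKT (1 / 25) c := by
  let A : ℝ → ℝ := fun c => 1 + 1 / 25 - 2 * c ^ 2
  let A' : ℝ → ℝ := fun c => 1 + 1 / 25 - 2 * c ^ 2 - (1 / 25) ^ 2 * (1 + 1 / 25 + 2 - 4 * c)
  let E : ℝ → ℝ := fun c => (1 + c) * (1 + c - 2 * (1 / 25) ^ 2)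
  let De : ℝ → ℝ := fun c => 1 + 2 * (1 / 25) - 3 * c ^ 2
  let F : ℝ → ℝ := fun c => -c * (A c * A' c * E c) +
    2 * (1 / 25) ^ 2 * (1 + 1 / 25 - 2 * c) * (1 - c) * (De c * E c) +
    10000 * (1 / 25) ^ 2 * (De c * A c * A' c)
  have hF : ContinuousOn F (Set.Icc (57 / 100) (58 / 100)) := by
    apply Continuous.continuousOn
    simp only [F, A, A', E, De]
    fun_prop
  have hiv := intermediate_value_Icc' (show (57 / 100 : ℝ) ≤ 58 / 100 by norm_num) hF
  have h0 : (0 : ℝ) ∈ Set.Icc (F (58 / 100)) (F (57 / 100)) := by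
    simp only [F, A, A', E, De]
    constructor <;> norm_num
  obtain ⟨c, ⟨hc1, hc2⟩, hc⟩ := hiv h0
  refine ⟨c, hc1, hc2, ?_⟩
  have hA : 0 < A c := by simp only [A]; nlinarith
  have hA' : 0 < A' c := by simp only [A']; nlinarith
  have hD : 0 < De c := by simp only [De]; nlinarith
  have hE1 : 0 < 1 + c := by linarith
  have hE2 : 0 < 1 + c - 2 * (1 / 25) ^ 2 := by norm_num; linarith
  have e1 : (1 : ℝ) - 1 / 25 * (bh (1 / 25) c + 2 * bc (1 / 25) c) = A' c / A c := by
    simp only [bh, bc]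
    rw [show (1 : ℝ) + 1 / 25 - 2 * c ^ 2 = A c from rfl]
    field_simp
    simp only [A, A']
    ring
  have e2 : (1 : ℝ) - 2 * (1 / 25) * bj (1 / 25) c = (1 + c - 2 * (1 / 25) ^ 2) / (1 + c) := by
    simp only [bj]
    field_simp
  unfold KKT
  rw [e1, e2]
  simp only [bh, bc, bj]
  rw [show (1 : ℝ) + 1 / 25 - 2 * c ^ 2 = A c from rfl,
    show (1 : ℝ) + 2 * (1 / 25) - 3 * c ^ 2 = De c from rfl]
  have hc' : -c * (A c * A' c * ((1 + c) * (1 + c - 2 * (1 / 25) ^ 2))) +
    2 * (1 / 25) ^ 2 * (1 + 1 / 25 - 2 * c) * (1 - c) * (De c * ((1 + c) * (1 + c - 2 * (1 / 25) ^ 2))) +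
    10000 * (1 / 25) ^ 2 * (De c * A c * A' c) = 0 := hc
  generalize A c = a at *
  generalize A' c = a' at *
  generalize De c = d at *
  generalize he : 1 + c - 2 * (1 / 25 : ℝ) ^ 2 = e at *
  have hgoal : -c / d + 2 * (1 / 25 * (1 + 1 / 25 - 2 * c) / a * (a' / a)⁻¹ * (1 / 25 * (1 - c) / a)) +
      10000 * (1 / 25 / (1 + c) * (e / (1 + c))⁻¹ * (1 / 25 / (1 + c))) =
      (-c * (a * a' * ((1 + c) * e)) +
        2 * (1 / 25) ^ 2 * (1 + 1 / 25 - 2 * c) * (1 - c) * (d * ((1 + c) * e)) +
        10000 * (1 / 25) ^ 2 * (d * a * a')) / (d * a * a' * ((1 + c) * e)) := by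
    have := hE1.ne'
    field_simp
  rw [hgoal, hc', zero_div]

/-- **Both Q1 and Q2 have a negative answer.**  There are a connected graph `G`, a real number
`0 < x < 1` and a matrix `M` of maximal determinant in `𝒜(G, x)` with a negative entry. -/
theorem result : ∃ (V : Type) (_ : Fintype V) (_ : DecidableEq V) (G : SimpleGraph V) (x : ℝ)
    (M : Matrix V V ℝ) (u v : V), G.Connected ∧ 0 < x ∧ x < 1 ∧ IsDetMax G x M ∧ M u v < 0 := by
  obtain ⟨c, hc1, hc2, hK⟩ := exists_c
  have hA : 0 < 1 + (1 / 25 : ℝ) - 2 * c ^ 2 := by nlinarith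
  have hD : 0 < 1 + 2 * (1 / 25 : ℝ) - 3 * c ^ 2 := by nlinarith
  have hxc : 0 ≤ c ^ 2 - (1 / 25 : ℝ) := by nlinarith
  have hE1 : 0 < 1 + c := by linarith
  have hdv : ∀ w, 0 < dv (1 / 25) c w := by
    rintro (k | p)
    · show 0 < 1 - 1 / 25 * (bh (1 / 25) c + 2 * bc (1 / 25) c)
      have e1 : (1 : ℝ) - 1 / 25 * (bh (1 / 25) c + 2 * bc (1 / 25) c) =
          (1 + 1 / 25 - 2 * c ^ 2 - (1 / 25) ^ 2 * (1 + 1 / 25 + 2 - 4 * c)) /
            (1 + 1 / 25 - 2 * c ^ 2) := by
        simp only [bh, bc]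
        have := hA.ne'
        generalize hg : (1 + (1 / 25 : ℝ) - 2 * c ^ 2) = g at *
        field_simp
        ring
      rw [e1]
      apply div_pos _ hA
      nlinarith
    · show 0 < 1 - 2 * (1 / 25) * bj (1 / 25) c
      have e2 : (1 : ℝ) - 2 * (1 / 25) * bj (1 / 25) c = (1 + c - 2 * (1 / 25) ^ 2) / (1 + c) := by
        simp only [bj]
        field_simp
      rw [e2]
      apply div_pos _ hE1
      norm_num; linarith
  have hin : InA G (1 / 25) (Mm (1 / 25) c) :=
    inA hD hxc (by norm_num) hA.ne' hE1.ne' hdv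
  refine ⟨V, inferInstance, inferInstance, G, 1 / 25, Mm (1 / 25) c,
    Sum.inr (Sum.inl 0), Sum.inl (some 0), connected, by norm_num, by norm_num, ?_, ?_⟩
  · exact isDetMax_of G (1 / 25) (Mm (1 / 25) c) (Pm (1 / 25) c) hin
      (Pm_mul_Mm (by norm_num) hD.ne' (fun w => (hdv w).ne')) (Pm_zero hK)
  · show (B (1 / 25) c * M0 (1 / 25) c) (Sum.inl 0) (some 0) < 0
    rw [Matrix.mul_apply, Fintype.sum_option, Fin.sum_univ_three]
    have e3 : B (1 / 25) c (Sum.inl 0) none * M0 (1 / 25) c none (some 0) +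
        (B (1 / 25) c (Sum.inl 0) (some 0) * M0 (1 / 25) c (some 0) (some 0) +
          B (1 / 25) c (Sum.inl 0) (some 1) * M0 (1 / 25) c (some 1) (some 0) +
          B (1 / 25) c (Sum.inl 0) (some 2) * M0 (1 / 25) c (some 2) (some 0)) =
        1 / 25 * (c * (1 + 1 / 25 - 2 * c) + 2 * (1 / 25) * (1 - c)) / (1 + 1 / 25 - 2 * c ^ 2) := by
      have h10 : ¬ ((1 : Fin 3) = 0) := by decide
      have h20 : ¬ ((2 : Fin 3) = 0) := by decide
      simp only [B, M0, bh, bc, h10, h20, if_false, if_true]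
      ring
    rw [e3]
    apply div_neg_of_neg_of_pos _ hA
    nlinarith

end Pool.Agent.Results.MP_e7c87c_co.NegativeEntry
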